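import Pool.Agent.Mg.F810665.G728f99

open Pool.Agent.MP_810665_al

/-- Disproof of Q1: an infinite, topologically finitely generated FAb profinite group whose
representation zeta function continues meromorphically to the whole plane and is analytic and
non-zero at `-2`. -/
theorem Pool.Agent.Results.MP_810665_al.Counterexample.result :
    ∃ G : ProfiniteGrp.{0}, Infinite G ∧
      (∃ S : Finset G, (Subgroup.closure (S : Set G)).topologicalClosure = ⊤) ∧
      (∀ U : Subgroup G, IsOpen (U : Set G) → Finite (TopologicalAbelianization U)) ∧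
      (∀ n, Finite (IrrClass G n)) ∧
      ∃ α : ℝ,
        (∀ s : ℂ, α < s.re → LSeriesSummable (fun n => (Nat.card (IrrClass G n) : ℂ)) s) ∧
        ∃ F : ℂ → ℂ, Meromorphic F ∧
          (∀ s : ℂ, α < s.re → F s = LSeries (fun n => (Nat.card (IrrClass G n) : ℂ)) s) ∧
          AnalyticAt ℂ F (-2) ∧ F (-2) ≠ 0 := by
  obtain ⟨G, h1, h2, h3, h4, a, h5, h6, h7⟩ := exists_group
  exact ⟨G, h1, h2, h3, h4, analytic_part a _ h5 h6 h7⟩
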